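import Pool.Agent.helper10.K4.Graph

/-! # `K₄`-codes and functions of bounded degree of the edge set

For every finite abelian group `G` and every `D`, for all large `n`: if `Φ` is a `G`-valued function of
degree at most `D` of the edge set of a graph on `n` vertices and `U` is a union of level sets of `Φ`, then
every `K₄`-code misses a positive proportion (bounded below in terms of `G` and `D` only) of `U`.
-/

namespace Pool.Agent.Results.MP_a43c1c_co.AlgebraicCells

open Finset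

/-- `F` is a `K₄`-code: no two distinct members differ in exactly the edges of a copy of `K₄` -/
def IsK4Code {n : ℕ} (F : Set (SimpleGraph (Fin n))) : Prop :=
  ∀ G₁ ∈ F, ∀ G₂ ∈ F, G₁ ≠ G₂ →
    ¬ ∃ S : Finset (Fin n), S.card = 4 ∧
      ∀ u v : Fin n, (symmDiff G₁ G₂).Adj u v ↔ (u ∈ S ∧ v ∈ S ∧ u ≠ v)

open Classical in
/-- the `G`-valued function of degree at most `D` with coefficients `c`: the sum of `c T` over all sets `T` of
at most `D` edges of the graph `A` -/
noncomputable def degFun {n : ℕ} {G : Type} [AddCommGroup G] (D : ℕ)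
    (c : Finset (Sym2 (Fin n)) → G) (A : SimpleGraph (Fin n)) : G :=
  ∑ T : Finset (Sym2 (Fin n)), if T.card ≤ D ∧ (∀ e ∈ T, e ∈ A.edgeSet) then c T else 0

lemma degFun_eq {n : ℕ} {G : Type} [AddCommGroup G] (D : ℕ)
    (c : Finset (Sym2 (Fin n)) → G) (A : SimpleGraph (Fin n)) :
    degFun D c A = helper10.K4.Phi D c A := by
  classical
  unfold degFun helper10.K4.Phi
  rw [← Finset.sum_filter, ← Finset.sum_filter]
  apply Finset.sum_congr _ fun _ _ => rfl
  ext T
  simp only [mem_filter, mem_univ, true_and, mem_powerset]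
  constructor
  · rintro ⟨h1, h2⟩
    exact ⟨fun e he => helper10.K4.mem_es.2 (h2 e he), h1⟩
  · rintro ⟨h1, h2⟩
    exact ⟨h2, fun e he => helper10.K4.mem_es.1 (h1 he)⟩

theorem result : ∀ (G : Type) [AddCommGroup G] [Finite G] (D : ℕ), ∃ C n₀ : ℕ, ∀ n : ℕ, n₀ ≤ n →
    ∀ (c : Finset (Sym2 (Fin n)) → G) (P : Set G) (F : Set (SimpleGraph (Fin n))), IsK4Code F →
      {A : SimpleGraph (Fin n) | degFun D c A ∈ P}.ncard ≤
        C * ({A : SimpleGraph (Fin n) | degFun D c A ∈ P} \ F).ncard := by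
  classical
  intro G _ _ D
  obtain ⟨m, hm⟩ := helper10.K4.local_graph G D
  refine ⟨2 ^ (m * m), m, fun n hn c P F hF => ?_⟩
  set U : Set (SimpleGraph (Fin n)) := {A | degFun D c A ∈ P} with hU
  have hex : ∀ A : SimpleGraph (Fin n), A ∈ U → ∃ B : SimpleGraph (Fin n), B ∈ U \ F ∧
      ∀ u v : Fin n, ¬ ((u : ℕ) < m ∧ (v : ℕ) < m) → (B.Adj u v ↔ A.Adj u v) := by
    intro A hA
    obtain ⟨A₁, A₂, h1, h2, h3, h4, h5, h6⟩ := hm n hn c A
    have hA1 : A₁ ∈ U := by
      show degFun D c A₁ ∈ P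
      rw [degFun_eq, h1, ← degFun_eq]; exact hA
    have hA2 : A₂ ∈ U := by
      show degFun D c A₂ ∈ P
      rw [degFun_eq, h2, ← degFun_eq]; exact hA
    by_cases hF1 : A₁ ∈ F
    · by_cases hF2 : A₂ ∈ F
      · exact absurd h4 (hF A₁ hF1 A₂ hF2 h3)
      · exact ⟨A₂, ⟨hA2, hF2⟩, h6⟩
    · exact ⟨A₁, ⟨hA1, hF1⟩, h5⟩
  choose! B hB1 hB2 using hex
  let inner : SimpleGraph (Fin n) → Finset (Fin m × Fin m) := fun A =>
    univ.filter (fun p => A.Adj ⟨p.1, by omega⟩ ⟨p.2, by omega⟩)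
  let φ : U → (U \ F : Set (SimpleGraph (Fin n))) × Finset (Fin m × Fin m) := fun A =>
    (⟨B A.1, hB1 A.1 A.2⟩, inner A.1)
  have hφ : Function.Injective φ := by
    rintro ⟨A, hA⟩ ⟨A', hA'⟩ h
    simp only [φ, Prod.mk.injEq, Subtype.mk.injEq] at h
    obtain ⟨h1, h2⟩ := h
    apply Subtype.ext
    ext u v
    by_cases huv : (u : ℕ) < m ∧ (v : ℕ) < m
    · have h3 := Finset.ext_iff.1 h2 (⟨u, huv.1⟩, ⟨v, huv.2⟩)
      simpa [inner] using h3
    · rw [← hB2 A hA u v huv, ← hB2 A' hA' u v huv, h1]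
  have h1 := Nat.card_le_card_of_injective φ hφ
  rw [Nat.card_prod, Nat.card_coe_set_eq, Nat.card_coe_set_eq] at h1
  have h2 : Nat.card (Finset (Fin m × Fin m)) = 2 ^ (m * m) := by
    rw [Nat.card_eq_fintype_card, Fintype.card_finset, Fintype.card_prod, Fintype.card_fin]
  rw [h2, mul_comm] at h1
  exact h1

end Pool.Agent.Results.MP_a43c1c_co.AlgebraicCells
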