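import Pool.Agent.helper92.K4H.Power

/-!
# Codes for even graphs with an even pair of colour classes

If `H` has an even positive number of edges and a proper colouring with four colours (some of
which may be unused) such that some two of the colour classes are joined by an even number of
edges, then `d_H(N) = O(N ^ (-δ))` for some `δ > 0`. Every 3-colourable `H` with an even positive
number of edges is covered, and among the graphs on at most four vertices only `K₄` is not.
-/

set_option autoImplicit false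

namespace Pool.Agent.Results.MP_a43c1c_co.EvenClasses

open Pool.Agent.helper92

/-- `F` is an `H`-code: no two distinct members of `F` differ in exactly the edges of a copy
of `H` (the image of `H` under an injection of its vertex set into that of the members). -/
def IsCode {k n : ℕ} (H : SimpleGraph (Fin k)) (F : Set (SimpleGraph (Fin n))) : Prop :=
  ∀ G₁ ∈ F, ∀ G₂ ∈ F, G₁ ≠ G₂ → ¬ ∃ ι : Fin k ↪ Fin n, symmDiff G₁ G₂ = H.map ι

/-- `D_H(n)`: the largest size of an `H`-code on `n` labelled vertices. -/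
noncomputable def D {k : ℕ} (H : SimpleGraph (Fin k)) (n : ℕ) : ℕ :=
  sSup {m : ℕ | ∃ F : Set (SimpleGraph (Fin n)), IsCode H F ∧ F.ncard = m}

/-- `d_H(n) = D_H(n) / 2 ^ (n choose 2)`. -/
noncomputable def d {k : ℕ} (H : SimpleGraph (Fin k)) (n : ℕ) : ℝ :=
  (D H n : ℝ) / 2 ^ (n.choose 2)

theorem d_le_one {k : ℕ} (H : SimpleGraph (Fin k)) (n : ℕ) : d H n ≤ 1 := by
  apply K4H.dens_le
  · exact fun _ h => h.elim
  · intro F _
    rw [div_le_one (K4H.gpos n)]
    exact_mod_cast Set.ncard_le_card F

theorem result (k : ℕ) (H : SimpleGraph (Fin k)) (hne : H ≠ ⊥) (heven : Even H.edgeSet.ncard)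
    (c : Fin k → Fin 4) (hproper : ∀ x y, H.Adj x y → c x ≠ c y)
    (i j : Fin 4) (hij : i ≠ j)
    (hclasses : Even {p : Fin k × Fin k | c p.1 = i ∧ c p.2 = j ∧ H.Adj p.1 p.2}.ncard) :
    ∃ A δ : ℝ, 0 < δ ∧ ∀ N : ℕ, 1 ≤ N → d H N ≤ A * (N : ℝ) ^ (-δ) := by
  have hcl : K4H.cl H c i j = 0 := by
    rw [K4H.cl_ncard]
    exact (ZMod.natCast_eq_zero_iff_even).2 hclasses
  obtain ⟨C, hC⟩ := K4H.main4 (⊥ : SimpleGraph Empty) k H c hproper i j hij hcl heven
  apply K4H.power_bound (d H) k C (d_le_one H)
  intro n N hN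
  apply K4H.dens_le
  · exact fun _ h => h.elim
  · intro F hF
    obtain ⟨F', hF', hle⟩ := hC n N hN F (K4H.scode_of H hne F hF)
    rw [K4H.empty_of_bot F' hF'] at hle
    simpa using hle

end Pool.Agent.Results.MP_a43c1c_co.EvenClasses
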