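import Pool.Agent.helper92.K4H.Dens

/-!
# `K₄` is the hardest graph with an even number of edges

For every graph `H` with an even positive number of edges, `d_H(N) ≤ d_{K₄}(n) + |V(H)| / (n + 1)`
as soon as `N` is at least a power of `n + 2` that depends on `H` only. Hence the question of Q1,
whether `d_{K₄}` tends to `0`, is equivalent to the question whether `d_H` tends to `0` for every
graph `H` with an even positive number of edges.
-/

set_option autoImplicit false

namespace Pool.Agent.Results.MP_a43c1c_co.KFourHardest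

open Filter Pool.Agent.helper92

/-- `F` is an `H`-code: no two distinct members of `F` differ in exactly the edges of a copy
of `H` (the image of `H` under an injection of its vertex set into that of the members). -/
def IsCode {k n : ℕ} (H : SimpleGraph (Fin k)) (F : Set (SimpleGraph (Fin n))) : Prop :=
  ∀ G₁ ∈ F, ∀ G₂ ∈ F, G₁ ≠ G₂ → ¬ ∃ ι : Fin k ↪ Fin n, symmDiff G₁ G₂ = H.map ι

/-- `D_H(n)`: the largest size of an `H`-code on `n` labelled vertices. -/
noncomputable def D {k : ℕ} (H : SimpleGraph (Fin k)) (n : ℕ) : ℕ :=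
  sSup {m : ℕ | ∃ F : Set (SimpleGraph (Fin n)), IsCode H F ∧ F.ncard = m}

/-- `d_H(n) = D_H(n) / 2 ^ (n choose 2)`. -/
noncomputable def d {k : ℕ} (H : SimpleGraph (Fin k)) (n : ℕ) : ℝ :=
  (D H n : ℝ) / 2 ^ (n.choose 2)

/-- The complete graph on four vertices. -/
def K4 : SimpleGraph (Fin 4) := ⊤

theorem d_nonneg {k : ℕ} (H : SimpleGraph (Fin k)) (n : ℕ) : 0 ≤ d H n := by
  unfold d
  positivity

theorem compare (k : ℕ) (H : SimpleGraph (Fin k)) (hne : H ≠ ⊥)
    (heven : Even H.edgeSet.ncard) :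
    ∃ C : ℕ, ∀ n N : ℕ, (n + 2) ^ C ≤ N → d H N ≤ d K4 n + (k : ℝ) / (n + 1) := by
  obtain ⟨C, hC⟩ := (K4H.main k H heven).1
  refine ⟨C, fun n N hN => ?_⟩
  apply K4H.dens_le
  · exact fun _ h => h.elim
  · intro F hF
    obtain ⟨F', hF', hle⟩ := hC n N hN F (K4H.scode_of H hne F hF)
    refine hle.trans ?_
    have h2 : (F'.ncard : ℝ) / Nat.card (SimpleGraph (Fin n)) ≤ d K4 n :=
      K4H.le_dens _ F' (K4H.of_scode K4 F' hF')
    linarith

theorem result :
    (∀ (k : ℕ) (H : SimpleGraph (Fin k)), H ≠ ⊥ → Even H.edgeSet.ncard →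
      ∃ C : ℕ, ∀ n N : ℕ, (n + 2) ^ C ≤ N → d H N ≤ d K4 n + (k : ℝ) / (n + 1)) ∧
    (Tendsto (d K4) atTop (nhds 0) ↔
      ∀ (k : ℕ) (H : SimpleGraph (Fin k)), H ≠ ⊥ → Even H.edgeSet.ncard →
        Tendsto (d H) atTop (nhds 0)) := by
  refine ⟨compare, ?_, ?_⟩
  · intro hlim k H hne heven
    obtain ⟨C, hC⟩ := compare k H hne heven
    rw [Metric.tendsto_atTop]
    intro ε hε
    have h1 : ∀ᶠ n : ℕ in atTop, d K4 n < ε / 2 := by
      have := hlim.eventually (gt_mem_nhds (show (0 : ℝ) < ε / 2 by linarith))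
      exact this
    have h2 : ∀ᶠ n : ℕ in atTop, (k : ℝ) / ((n : ℝ) + 1) < ε / 2 := by
      have ht : Tendsto (fun n : ℕ => (k : ℝ) / ((n : ℝ) + 1)) atTop (nhds 0) :=
        tendsto_const_div_atTop_nhds_zero_nat_succ k
      exact ht.eventually (gt_mem_nhds (show (0 : ℝ) < ε / 2 by linarith))
    obtain ⟨n, hn1, hn2⟩ := (h1.and h2).exists
    refine ⟨(n + 2) ^ C, fun N hN => ?_⟩
    rw [Real.dist_eq, sub_zero, abs_of_nonneg (d_nonneg H N)]
    have := hC n N hN
    linarith
  · intro hall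
    apply hall 4 K4
    · intro h
      have h1 : (K4).Adj 0 1 := by
        show (⊤ : SimpleGraph (Fin 4)).Adj 0 1
        rw [SimpleGraph.top_adj]
        decide
      rw [h] at h1
      exact h1
    · have h1 := K4H.ec_top 4
      have h2 : K4.edgeSet.ncard = Nat.choose 4 2 := h1
      rw [h2]
      decide
where
  tendsto_const_div_atTop_nhds_zero_nat_succ (k : ℕ) :
      Tendsto (fun n : ℕ => (k : ℝ) / ((n : ℝ) + 1)) atTop (nhds 0) := by
    have h := (tendsto_const_div_atTop_nhds_zero_nat (k : ℝ)).comp (tendsto_add_atTop_nat 1)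
    refine h.congr fun n => ?_
    simp [Function.comp]

end Pool.Agent.Results.MP_a43c1c_co.KFourHardest
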